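import Pool.Agent.H78.Sched.Main

/-!
A threshold algorithm with List Scheduling for general running times. A job `(t, p)` is rejected
if `p ≤ t / (c m)` (rule B) or if `(c - 1) X + c p < t`, where `X` is the total penalty of the jobs
rejected so far by this second rule (rule C). Otherwise it is put on a least loaded machine.
-/

namespace Pool.Agent.H69.Sched

open Pool.Agent.H78.Sched

variable {m : ℕ}

/-- The state: the loads and the total penalty of the jobs rejected by rule C. -/
structure St (m : ℕ) where
  a : Fin m → ℝ
  X : ℝ

/-- A least loaded machine. -/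
noncomputable def amin (hm : 0 < m) (a : Fin m → ℝ) : Fin m :=
  have : Nonempty (Fin m) := ⟨⟨0, hm⟩⟩
  (Finite.exists_min a).choose

theorem amin_le (hm : 0 < m) (a : Fin m → ℝ) (i : Fin m) : a (amin hm a) ≤ a i := by
  have : Nonempty (Fin m) := ⟨⟨0, hm⟩⟩
  exact (Finite.exists_min a).choose_spec i

/-- The decision. -/
noncomputable def dec (hm : 0 < m) (c : ℝ) (s : St m) (j : ℝ × ℝ) : Option (Fin m) :=
  if c * m * j.2 ≤ j.1 then none
  else if (c - 1) * s.X + c * j.2 < j.1 then none
  else some (amin hm s.a)

/-- The next state. -/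
noncomputable def nxt (hm : 0 < m) (c : ℝ) (s : St m) (j : ℝ × ℝ) : St m :=
  if c * m * j.2 ≤ j.1 then s
  else if (c - 1) * s.X + c * j.2 < j.1 then ⟨s.a, s.X + j.2⟩
  else ⟨fun i => s.a i + if amin hm s.a = i then j.1 else 0, s.X⟩

/-- The state after a list of jobs. -/
noncomputable def state (hm : 0 < m) (c : ℝ) (L : List (ℝ × ℝ)) : St m :=
  L.foldl (nxt hm c) ⟨fun _ => 0, 0⟩

theorem state_nil (hm : 0 < m) (c : ℝ) : state hm c [] = ⟨fun _ => 0, 0⟩ := rfl

theorem state_snoc (hm : 0 < m) (c : ℝ) (L : List (ℝ × ℝ)) (j : ℝ × ℝ) :
    state hm c (L ++ [j]) = nxt hm c (state hm c L) j := by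
  unfold state
  rw [List.foldl_append]
  rfl

/-- The algorithm. -/
noncomputable def alg (hm : 0 < m) (c : ℝ) (L : List (ℝ × ℝ)) : Option (Fin m) :=
  L.getLast?.bind (fun j => dec hm c (state hm c L.dropLast) j)

theorem alg_snoc (hm : 0 < m) (c : ℝ) (L : List (ℝ × ℝ)) (j : ℝ × ℝ) :
    alg hm c (L ++ [j]) = dec hm c (state hm c L) j := by
  simp [alg]

theorem load_snoc {I : List (ℝ × ℝ)} {α : List (Option (Fin m))} (h : α.length = I.length)
    (j : ℝ × ℝ) (d : Option (Fin m)) (i : Fin m) :
    load (I ++ [j]) (α ++ [d]) i = load I α i + if d = some i then j.1 else 0 := by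
  rw [load_append h.symm]
  simp [load]

theorem penalty_snoc {I : List (ℝ × ℝ)} {α : List (Option (Fin m))} (h : α.length = I.length)
    (j : ℝ × ℝ) (d : Option (Fin m)) :
    penalty (I ++ [j]) (α ++ [d]) = penalty I α + if d = none then j.2 else 0 := by
  rw [penalty_append h.symm]
  simp [penalty]

/-- The property of the jobs rejected by rule C and accepted in the other assignment, with total
penalty `x` and total running time `V`. -/
def Good (c T x V : ℝ) : Prop :=
  0 ≤ x ∧ 0 ≤ V ∧ (c - 1) * x ≤ T ∧
    ∀ K : ℕ, c ^ K * (T - (c - 1) * x) ≤ T →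
      (c - 1) * ((K + 1) * T) - (c ^ (K + 1) - 1) * (T - (c - 1) * x) ≤ (c - 1) * V

theorem good_zero {c T : ℝ} (hc : 1 < c) (hT : 0 ≤ T) : Good c T 0 0 := by
  refine ⟨le_rfl, le_rfl, by simpa using hT, ?_⟩
  intro K hK
  simp only [mul_zero, sub_zero] at hK ⊢
  rcases Nat.eq_zero_or_pos K with h | h
  · subst h
    simp
  · rcases hT.eq_or_lt with h0 | h0
    · rw [← h0]; simp
    · have h1 : (1 : ℝ) < c ^ K := one_lt_pow₀ hc h.ne'
      nlinarith

theorem good_step {c T x V X t p : ℝ} (hc : 1 < c) (h : Good c T x V) (hx : x ≤ X) (hp : 0 < p)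
    (htT : t ≤ T) (hr : (c - 1) * X + c * p < t) : Good c T (x + p) (V + t) := by
  obtain ⟨h1, h2, h3, h4⟩ := h
  have hc0 : 0 < c - 1 := by linarith
  have hcX : (c - 1) * x ≤ (c - 1) * X := mul_le_mul_of_nonneg_left hx hc0.le
  have ht0 : 0 < t := by
    have := mul_nonneg hc0.le h1
    have := mul_pos (by linarith : 0 < c) hp
    linarith
  refine ⟨by linarith, by linarith, by nlinarith, ?_⟩
  intro K hK
  have hd : T - (c - 1) * x ≤ c * (T - (c - 1) * (x + p)) := by nlinarith
  have ht : T - (T - (c - 1) * (x + p)) ≤ t := by nlinarith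
  rcases Nat.eq_zero_or_pos K with h | h
  · subst h
    simp only [pow_zero, one_mul, zero_add, pow_one, Nat.cast_zero] at hK ⊢
    have := mul_nonneg hc0.le h2
    nlinarith
  · obtain ⟨k, rfl⟩ : ∃ k, K = k + 1 := ⟨K - 1, by omega⟩
    have hck : (0 : ℝ) < c ^ k := by positivity
    have hck1 : (1 : ℝ) ≤ c ^ (k + 1) := one_le_pow₀ hc.le
    have h5 : c ^ k * (T - (c - 1) * x) ≤ T := by
      have := mul_le_mul_of_nonneg_left hd hck.le
      rw [pow_succ] at hK
      nlinarith
    have h6 := h4 k h5
    have h7 : (c ^ (k + 1) - 1) * (T - (c - 1) * x) ≤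
        (c ^ (k + 1) - 1) * (c * (T - (c - 1) * (x + p))) :=
      mul_le_mul_of_nonneg_left hd (by linarith)
    have h8 := mul_le_mul_of_nonneg_left ht hc0.le
    push_cast
    rw [pow_succ c (k + 1)]
    nlinarith

/-- The invariant relating the run of the algorithm and another assignment `σ` whose loads are at
most `T`. -/
theorem invariant (hm : 0 < m) {c T : ℝ} (hc : 1 < c) (hT : 0 ≤ T) (I : List (ℝ × ℝ))
    (hI : ∀ j ∈ I, 0 < j.1 ∧ 0 < j.2) (σ : List (Option (Fin m))) (hσ : σ.length = I.length)
    (hload : ∀ i, load I σ i ≤ T) :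
    (∀ i, load I (run (alg hm c) I) i = (state hm c I).a i) ∧
    ∃ x w V bh bd P : ℝ, 0 ≤ w ∧ 0 ≤ bh ∧ 0 ≤ bd ∧ 0 ≤ P ∧
      (state hm c I).X = x + w ∧
      penalty I (run (alg hm c) I) = x + w + bh + bd ∧
      penalty I σ = w + bd + P ∧
      (∑ i, (state hm c I).a i) + m * (c * bh) + V ≤ (∑ i, load I σ i) + m * (c * P) ∧
      (∀ i, m * (state hm c I).a i + m * (c * bh) + V ≤ m * T + (∑ i, load I σ i) + m * (c * P) ∨
        m * (state hm c I).a i + m * (c * bh) + V ≤
          (∑ i, load I σ i) + m * ((c - 1) * (x + w)) + m * (c * P)) ∧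
      Good c T x V := by
  have hm0 : (0 : ℝ) < m := by exact_mod_cast hm
  induction I using List.reverseRecOn generalizing σ with
  | nil =>
    have : σ = [] := List.length_eq_zero_iff.1 hσ
    subst this
    refine ⟨fun i => by simp [run, load, state_nil], 0, 0, 0, 0, 0, 0, le_rfl, le_rfl, le_rfl,
      le_rfl, by simp [state_nil], by simp [run, penalty], by simp [penalty],
      by simp [state_nil, load], ?_, good_zero hc hT⟩
    intro i
    left
    simp [state_nil, load]
    positivity
  | append_singleton I j ih =>
    obtain ⟨σ', d, rfl⟩ : ∃ σ' d, σ = σ' ++ [d] := by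
      have hne : σ ≠ [] := by
        intro h
        rw [h] at hσ
        simp at hσ
      exact ⟨σ.dropLast, σ.getLast hne, (List.dropLast_append_getLast hne).symm⟩
    have hσ' : σ'.length = I.length := by simpa using hσ
    have hj := hI j (by simp)
    have hI' : ∀ j ∈ I, 0 < j.1 ∧ 0 < j.2 := fun k hk => hI k (by simp [hk])
    have hls : ∀ i, load (I ++ [j]) (σ' ++ [d]) i = load I σ' i + if d = some i then j.1 else 0 :=
      fun i => load_snoc hσ' j d i
    have hload' : ∀ i, load I σ' i ≤ T := by
      intro i
      have h1 := hload i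
      rw [hls] at h1
      have : (0 : ℝ) ≤ if d = some i then j.1 else 0 := by
        split_ifs
        · exact hj.1.le
        · exact le_rfl
      linarith
    obtain ⟨hrun, x, w, V, bh, bd, P, hw, hbh, hbd, hP, hX, hpen, hpenσ, hvol, hmach, hgood⟩ :=
      ih hI' σ' hσ' hload'
    have hrl : (run (alg hm c) I).length = I.length := length_run _ _
    have hra : ∀ i, load (I ++ [j]) (run (alg hm c) (I ++ [j])) i =
        load I (run (alg hm c) I) i +
          if dec hm c (state hm c I) j = some i then j.1 else 0 := by
      intro i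
      rw [run_snoc, alg_snoc, load_snoc hrl]
    have hrp : penalty (I ++ [j]) (run (alg hm c) (I ++ [j])) =
        penalty I (run (alg hm c) I) + if dec hm c (state hm c I) j = none then j.2 else 0 := by
      rw [run_snoc, alg_snoc, penalty_snoc hrl]
    have hpσ : penalty (I ++ [j]) (σ' ++ [d]) = penalty I σ' + if d = none then j.2 else 0 :=
      penalty_snoc hσ' j d
    have hsum : (∑ i, load (I ++ [j]) (σ' ++ [d]) i) =
        (∑ i, load I σ' i) + if d = none then 0 else j.1 := by
      simp only [hls, Finset.sum_add_distrib]
      congr 1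
      cases d with
      | none => simp
      | some k => simp
    have htT : d ≠ none → j.1 ≤ T := by
      intro hd
      obtain ⟨i, hi⟩ := Option.ne_none_iff_exists'.1 hd
      have h1 := hload i
      rw [hls, if_pos hi] at h1
      have := load_nonneg hI' σ' i
      linarith
    have hc0 : 0 < c - 1 := by linarith
    have hx := hgood.1
    have hV := hgood.2.1
    rw [state_snoc, hrp, hpσ, hsum]
    simp only [hra]
    unfold dec nxt
    by_cases hB : c * m * j.2 ≤ j.1
    · -- rule B
      simp only [if_pos hB]
      refine ⟨fun i => by rw [hrun]; simp, ?_⟩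
      by_cases hd : d = none
      · refine ⟨x, w, V, bh, bd + j.2, P, hw, hbh, by linarith [hj.2], hP, hX,
          by simp only [if_true]; linarith, by rw [if_pos hd]; linarith,
          by rw [if_pos hd]; linarith, ?_, hgood⟩
        intro i
        rw [if_pos hd]
        rcases hmach i with h | h
        · left; linarith
        · right; linarith
      · refine ⟨x, w, V, bh + j.2, bd, P, hw, by linarith [hj.2], hbd, hP, hX,
          by simp only [if_true]; linarith, by rw [if_neg hd]; linarith,
          by rw [if_neg hd]; nlinarith, ?_, hgood⟩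
        intro i
        rw [if_neg hd]
        rcases hmach i with h | h
        · left; nlinarith
        · right; nlinarith
    · simp only [if_neg hB]
      push Not at hB
      by_cases hC : (c - 1) * (state hm c I).X + c * j.2 < j.1
      · -- rule C
        simp only [if_pos hC]
        refine ⟨fun i => by rw [hrun]; simp, ?_⟩
        by_cases hd : d = none
        · refine ⟨x, w + j.2, V, bh, bd, P, by linarith [hj.2], hbh, hbd, hP, by linarith,
            by simp only [if_true]; linarith, by rw [if_pos hd]; linarith,
            by rw [if_pos hd]; linarith, ?_, hgood⟩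
          intro i
          rw [if_pos hd]
          rcases hmach i with h | h
          · left; linarith
          · right
            have : 0 ≤ m * ((c - 1) * j.2) := by
              have := hj.2
              positivity
            nlinarith
        · refine ⟨x + j.2, w, V + j.1, bh, bd, P, hw, hbh, hbd, hP, by linarith,
            by simp only [if_true]; linarith, by rw [if_neg hd]; linarith,
            by rw [if_neg hd]; linarith, ?_, ?_⟩
          · intro i
            rw [if_neg hd]
            rcases hmach i with h | h
            · left; linarith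
            · right
              have : 0 ≤ m * ((c - 1) * j.2) := by
                have := hj.2
                positivity
              nlinarith
          · exact good_step hc hgood (by rw [hX]; linarith) hj.2 (htT hd) hC
      · -- accepted
        simp only [if_neg hC]
        push Not at hC
        refine ⟨fun i => by rw [hrun]; simp [Option.some.injEq], ?_⟩
        have hsa : (∑ i, ((state hm c I).a i + if amin hm (state hm c I).a = i then j.1 else 0)) =
            (∑ i, (state hm c I).a i) + j.1 := by
          rw [Finset.sum_add_distrib]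
          simp
        have hmin : m * (state hm c I).a (amin hm (state hm c I).a) ≤
            ∑ i, (state hm c I).a i := by
          have := Finset.card_nsmul_le_sum (Finset.univ : Finset (Fin m))
            (fun i => (state hm c I).a i) ((state hm c I).a (amin hm (state hm c I).a))
            (fun i _ => amin_le hm _ i)
          rw [Finset.card_univ, Fintype.card_fin, nsmul_eq_mul] at this
          exact this
        by_cases hd : d = none
        · refine ⟨x, w, V, bh, bd, P + j.2, hw, hbh, hbd, by linarith [hj.2], hX,
            by simp; linarith, by rw [if_pos hd]; linarith,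
            by rw [if_pos hd, hsa]; nlinarith, ?_, hgood⟩
          intro i
          rw [if_pos hd]
          have hcp : 0 ≤ m * (c * j.2) := by
            have := hj.2
            positivity
          by_cases hi : amin hm (state hm c I).a = i
          · right
            rw [if_pos hi]
            rw [hi] at hmin
            rw [← hX]
            nlinarith
          · rw [if_neg hi]
            rcases hmach i with h | h
            · left; linarith
            · right; linarith
        · refine ⟨x, w, V, bh, bd, P, hw, hbh, hbd, hP, hX,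
            by simp; linarith, by rw [if_neg hd]; linarith,
            by rw [if_neg hd, hsa]; linarith, ?_, hgood⟩
          intro i
          rw [if_neg hd]
          by_cases hi : amin hm (state hm c I).a = i
          · left
            rw [if_pos hi]
            rw [hi] at hmin
            have := htT hd
            nlinarith [hj.1]
          · rw [if_neg hi]
            have := hj.1
            rcases hmach i with h | h
            · left; linarith
            · right; linarith

/-- The criterion. -/
theorem competitive_of (hm : 0 < m) {c Z : ℝ} (hc : 2 ≤ c) (hZ : 1 = (c - 1) * (c - 2 + Z))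
    (hZ0 : 0 ≤ Z) (K : ℕ) (hK : c ^ K * ((c - 1) * Z) ≤ 1)
    (hK' : m * Z ≤ (K + 1) - (c ^ (K + 1) - 1) * Z) : Competitive m (alg hm c) c := by
  have hm0 : (0 : ℝ) < m := by exact_mod_cast hm
  have : Nonempty (Fin m) := ⟨⟨0, hm⟩⟩
  intro I hI
  have hc0 : 0 < c - 1 := by linarith
  -- compare with an assignment
  have key : ∀ σ : List (Option (Fin m)), σ.length = I.length →
      cost I (run (alg hm c) I) ≤ c * cost I σ := by
    intro σ hσ
    set T : ℝ := ⨆ i : Fin m, load I σ i with hTdef
    have hload : ∀ i, load I σ i ≤ T := fun i => le_ciSup (bddAbove_load I σ) i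
    have hT : 0 ≤ T := Real.iSup_nonneg (fun i => load_nonneg hI σ i)
    obtain ⟨hrun, x, w, V, bh, bd, P, hw, hbh, hbd, hP, hX, hpen, hpenσ, hvol, hmach, hgood⟩ :=
      invariant (c := c) hm (by linarith) hT I hI σ hσ hload
    have hsumT : (∑ i, load I σ i) ≤ m * T := by
      have : ∑ i : Fin m, load I σ i ≤ ∑ _i : Fin m, T :=
        Finset.sum_le_sum (fun i _ => hload i)
      rw [Finset.sum_const, Finset.card_univ, Fintype.card_fin, nsmul_eq_mul] at this
      exact this
    obtain ⟨hx, hV, hxT, hgK⟩ := hgood
    -- the two inequalities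
    have hquad : c * (c - 2) ≤ c - 1 := by nlinarith
    have hkey : m * x ≤ m * ((c - 2) * T) + V ∧ m * (c * x) ≤ m * ((c - 1) * T) + V := by
      by_cases hd : (c - 1) * (Z * T) ≤ T - (c - 1) * x
      · have h1 : x ≤ (c - 2) * T := by
          have h2 : (c - 1) * x ≤ (c - 1) * ((c - 2) * T) := by
            have : T = (c - 1) * (c - 2 + Z) * T := by rw [← hZ, one_mul]
            nlinarith
          exact le_of_mul_le_mul_left h2 hc0
        have h2 : c * x ≤ (c - 1) * T := by
          have h3 : c * x ≤ c * ((c - 2) * T) := mul_le_mul_of_nonneg_left h1 (by linarith)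
          have h4 := mul_le_mul_of_nonneg_right hquad hT
          linarith
        have h3 := mul_le_mul_of_nonneg_left h1 hm0.le
        have h4 := mul_le_mul_of_nonneg_left h2 hm0.le
        exact ⟨by linarith, by linarith⟩
      · push Not at hd
        have hcK : (0 : ℝ) < c ^ K := by positivity
        have h1 : c ^ K * (T - (c - 1) * x) ≤ T := by
          have h2 := mul_le_mul_of_nonneg_left hd.le hcK.le
          have h3 := mul_le_mul_of_nonneg_right hK hT
          nlinarith
        have h2 := hgK K h1
        have h3 : m * (Z * T) ≤ V := by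
          have hcK1 : (1 : ℝ) ≤ c ^ (K + 1) := one_le_pow₀ (by linarith)
          have h4 := mul_le_mul_of_nonneg_left hd.le (by linarith : (0 : ℝ) ≤ c ^ (K + 1) - 1)
          have h5 := mul_le_mul_of_nonneg_right hK' hT
          have h6 : (c - 1) * (m * (Z * T)) ≤ (c - 1) * V := by
            have h7 := mul_le_mul_of_nonneg_left h5 hc0.le
            nlinarith
          exact le_of_mul_le_mul_left h6 hc0
        have h4 : x ≤ (c - 2) * T + Z * T := by
          have h5 : (c - 1) * x ≤ (c - 1) * ((c - 2) * T + Z * T) := by
            have : T = (c - 1) * (c - 2 + Z) * T := by rw [← hZ, one_mul]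
            nlinarith
          exact le_of_mul_le_mul_left h5 hc0
        have h5 : c * x ≤ (c - 1) * T + Z * T := by
          have h6 : c * x ≤ c * ((c - 2) * T + Z * T) :=
            mul_le_mul_of_nonneg_left h4 (by linarith)
          have h7 : c * ((c - 2) * T + Z * T) = (c - 1) * T + Z * T := by
            have : T = (c - 1) * (c - 2 + Z) * T := by rw [← hZ, one_mul]
            nlinarith
          linarith
        have h6 := mul_le_mul_of_nonneg_left h4 hm0.le
        have h7 := mul_le_mul_of_nonneg_left h5 hm0.le
        exact ⟨by nlinarith, by nlinarith⟩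
    have hcost : cost I σ = T + (w + bd + P) := by
      unfold cost
      rw [hpenσ]
    have hbound : ∀ i, load I (run (alg hm c) I) i ≤ c * (T + (w + bd + P)) -
        (x + w + bh + bd) := by
      intro i
      rw [hrun]
      have hbhc : bh ≤ c * bh := by nlinarith
      have hbdc : bd ≤ c * bd := by nlinarith
      have hwc : w ≤ c * w := by nlinarith
      have h1 : m * ((state hm c I).a i) ≤ m * (c * (T + (w + bd + P)) - (x + w + bh + bd)) := by
        have e1 := mul_le_mul_of_nonneg_left hbhc hm0.le
        have e2 := mul_le_mul_of_nonneg_left hbdc hm0.le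
        have e3 := mul_le_mul_of_nonneg_left hwc hm0.le
        rcases hmach i with h | h
        · have := hkey.1
          nlinarith
        · have := hkey.2
          nlinarith
      exact le_of_mul_le_mul_left h1 hm0
    rw [hcost]
    unfold cost
    rw [hpen]
    have := ciSup_le hbound
    linarith
  unfold opt
  rw [← div_le_iff₀' (by linarith : (0 : ℝ) < c)]
  apply le_csInf
  · exact ⟨_, List.replicate I.length none, by simp, rfl⟩
  · rintro y ⟨σ, hσ, rfl⟩
    rw [div_le_iff₀' (by linarith : (0 : ℝ) < c)]
    exact key σ hσ

theorem comp_nonneg {A : List (ℝ × ℝ) → Option (Fin m)} {c : ℝ} (hA : Competitive m A c) :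
    0 ≤ c := hA.unit.nonneg

theorem R_bddBelow (m : ℕ) :
    BddBelow {c | ∃ A : List (ℝ × ℝ) → Option (Fin m), Competitive m A c} := by
  refine ⟨0, ?_⟩
  rintro c ⟨A, hA⟩
  exact comp_nonneg hA

/-- The upper bound from the criterion. -/
theorem R_le_of (hm : 0 < m) {c Z : ℝ} (hc : 2 ≤ c) (hZ : 1 = (c - 1) * (c - 2 + Z))
    (hZ0 : 0 ≤ Z) (K : ℕ) (hK : c ^ K * ((c - 1) * Z) ≤ 1)
    (hK' : m * Z ≤ (K + 1) - (c ^ (K + 1) - 1) * Z) : R m ≤ c :=
  csInf_le (R_bddBelow m) ⟨alg hm c, competitive_of hm hc hZ hZ0 K hK hK'⟩

end Pool.Agent.H69.Sched
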