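import Pool.Agent.H69.Sched.LogAlg

namespace Pool.Agent.H69.Sched

open Pool.Agent.H78.Sched Real

theorem phi_gt : 1.618033 < goldenRatio := by
  have h := goldenRatio_sq
  nlinarith [goldenRatio_pos]

theorem phi_lt : goldenRatio < 1.618034 := by
  have h := goldenRatio_sq
  nlinarith [goldenRatio_pos]

/-- The parameter `Z` as a function of the gap `g`. -/
theorem phi_prod (g : ℝ) : 1 - (goldenRatio - g) * (goldenRatio - g - 1) =
    g * (2 * goldenRatio - 1 - g) := by
  have h3 := goldenRatio_sq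
  linear_combination -h3

theorem Z_eq {g : ℝ} (h0 : 0 < goldenRatio - g) :
    1 = ((1 + goldenRatio - g) - 1) * ((1 + goldenRatio - g) - 2 +
      (1 / (goldenRatio - g) - (goldenRatio - g - 1))) := by
  have h1 : (1 + goldenRatio - g) - 1 = goldenRatio - g := by ring
  have h2 : (1 + goldenRatio - g) - 2 + (1 / (goldenRatio - g) - (goldenRatio - g - 1)) =
      1 / (goldenRatio - g) := by ring
  rw [h1, h2, mul_one_div_cancel h0.ne']

theorem exists_Z {g : ℝ} (hg : 0 < g) (hg' : g ≤ 7 / 100) :
    ∃ Z : ℝ, 0 ≤ Z ∧ Z ≤ 7 / 5 * g ∧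
      1 = ((1 + goldenRatio - g) - 1) * ((1 + goldenRatio - g) - 2 + Z) := by
  have h1 := phi_gt
  have h2 := phi_lt
  have h3 := goldenRatio_sq
  have h0 : 0 < goldenRatio - g := by linarith
  refine ⟨1 / (goldenRatio - g) - (goldenRatio - g - 1), ?_, ?_, ?_⟩
  · rw [sub_nonneg, le_div_iff₀ h0]
    nlinarith
  · rw [sub_le_iff_le_add, div_le_iff₀ h0]
    nlinarith
  · exact Z_eq h0

theorem log_le_exp {x : ℝ} (hx : 0 < x) : log x ≤ 10 / 27 * x := by
  have h1 := log_le_sub_one_of_pos (x := x / exp 1) (by positivity)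
  rw [log_div hx.ne' (exp_pos 1).ne', log_exp] at h1
  have h2 : x / exp 1 ≤ 10 / 27 * x := by
    have := exp_one_gt_d9
    rw [div_le_iff₀ (exp_pos 1)]
    nlinarith
  linarith

theorem log_seven : log 7 ≤ 2 := by
  rw [log_le_iff_le_exp (by norm_num)]
  have h1 : exp 2 = exp 1 * exp 1 := by rw [← exp_add]; norm_num
  have h2 := exp_one_gt_d9
  rw [h1]
  nlinarith

/-- The upper bound for all `m ≥ 2`. -/
theorem log_bound (m : ℕ) (hm : 2 ≤ m) : R m ≤ 1 + goldenRatio - log m / (7 * m) := by
  have hm0 : (0 : ℝ) < m := by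
    have : 0 < m := by omega
    exact_mod_cast this
  have hm2 : (2 : ℝ) ≤ m := by exact_mod_cast hm
  have hlog : 0 < log m := log_pos (by linarith)
  set g : ℝ := log m / (7 * m) with hg
  have hg0 : 0 < g := by positivity
  have hg1 : g ≤ 7 / 100 := by
    rw [hg, div_le_iff₀ (by positivity)]
    have := log_le_exp hm0
    linarith
  obtain ⟨Z, hZ0, hZ1, hZ⟩ := exists_Z hg0 hg1
  have h1 := phi_gt
  have h2 := phi_lt
  have hZm : m * Z ≤ log m / 5 := by
    have h3 := mul_le_mul_of_nonneg_left hZ1 hm0.le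
    have h4 : m * (7 / 5 * g) = log m / 5 := by
      rw [hg]; field_simp
    linarith
  have hZs : Z ≤ 1 / 10 := by linarith
  rcases Nat.eq_zero_or_pos (Nat.log 7 m) with hL | hL
  · have hm7 : m < 7 := by
      rcases Nat.log_eq_zero_iff.1 hL with h | h
      · exact h
      · omega
    have hm7' : (m : ℝ) ≤ 7 := by exact_mod_cast hm7.le
    have hl : log m ≤ 2 := (log_le_log hm0 hm7').trans log_seven
    refine R_le_of (by omega) (by linarith) hZ hZ0 0 ?_ ?_
    · simp only [pow_zero, one_mul]
      nlinarith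
    · simp only [zero_add, pow_one, Nat.cast_zero]
      nlinarith
  · set c : ℝ := 1 + goldenRatio - g with hc
    have hc2 : c ^ 2 ≤ 7 := by nlinarith
    have hc0 : 0 < c := by linarith
    obtain ⟨K, hK⟩ : ∃ K, Nat.log 7 m = K + 1 := ⟨Nat.log 7 m - 1, by omega⟩
    have hpow : (7 : ℝ) ^ (K + 1) ≤ m := by
      have := Nat.pow_log_le_self 7 (x := m) (by omega)
      rw [hK] at this
      exact_mod_cast this
    have hpow2 : (m : ℝ) ≤ 7 ^ (K + 2) := by
      have := Nat.lt_pow_succ_log_self (b := 7) (by norm_num) m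
      rw [hK] at this
      exact_mod_cast this.le
    have hlm : log m ≤ 4 * (K + 1) := by
      have h3 := log_le_log hm0 hpow2
      rw [log_pow] at h3
      push_cast at h3
      have h4 := log_seven
      have h5 : (0 : ℝ) ≤ K := Nat.cast_nonneg K
      nlinarith
    have hcs : c ^ (K + 1) ≤ √m := by
      apply le_sqrt_of_sq_le
      calc (c ^ (K + 1)) ^ 2 = (c ^ 2) ^ (K + 1) := by rw [← pow_mul, ← pow_mul, mul_comm]
        _ ≤ 7 ^ (K + 1) := pow_le_pow_left₀ (by positivity) hc2 _
        _ ≤ m := hpow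
    have hss : √(m : ℝ) * √(m : ℝ) = m := mul_self_sqrt hm0.le
    have hs1 : 1 ≤ √(m : ℝ) := by
      rw [show (1 : ℝ) = √1 by simp]
      exact sqrt_le_sqrt (by linarith)
    have hs4 : √(m : ℝ) - 1 ≤ m / 4 := by nlinarith [sq_nonneg (√(m : ℝ) - 2)]
    refine R_le_of (by omega) (by linarith) hZ hZ0 K ?_ ?_
    · -- `c ^ K (c - 1) Z ≤ 1`
      have h3 : c ^ K * ((c - 1) * Z) ≤ c ^ (K + 1) * Z := by
        rw [pow_succ]
        have : 0 ≤ c ^ K * Z := by positivity
        nlinarith
      have h4 : c ^ (K + 1) * Z ≤ √m * Z := mul_le_mul_of_nonneg_right hcs hZ0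
      have h5 : log m ≤ 2 * (10 / 27 * √m) := by
        have h6 := log_le_exp (x := √(m : ℝ)) (by linarith)
        have h7 : log (m : ℝ) = log (√(m : ℝ)) + log (√(m : ℝ)) := by
          rw [← log_mul (by linarith) (by linarith), hss]
        linarith
      have h6 : √m * (√m * Z) ≤ √m * 1 := by
        rw [← mul_assoc, hss]
        linarith
      have h7 : √m * Z ≤ 1 := le_of_mul_le_mul_left h6 (by linarith)
      linarith
    · have h3 : (c ^ (K + 1) - 1) * Z ≤ m / 4 * Z :=
        mul_le_mul_of_nonneg_right (by linarith) hZ0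
      nlinarith

/-- The bound for `m ≥ 13`. -/
theorem strict_bound (m : ℕ) (hm : 13 ≤ m) : R m < 1 + goldenRatio - 1 / m := by
  have hm0 : (0 : ℝ) < m := by
    have : 0 < m := by omega
    exact_mod_cast this
  have hm13 : (13 : ℝ) ≤ m := by exact_mod_cast hm
  set g : ℝ := 1.001 / m with hg
  have hgm : g * m = 1.001 := by rw [hg]; field_simp
  have hg0 : 0 < g := by positivity
  have hg1 : g ≤ 0.077 := by
    rw [hg, div_le_iff₀ hm0]
    linarith
  have h1 := phi_gt
  have h2 := phi_lt
  have h3 := goldenRatio_sq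
  have h0 : 0 < goldenRatio - g := by linarith
  set c : ℝ := 1 + goldenRatio - g with hc
  have hle : R m ≤ c := by
    have e : (goldenRatio - g) * (1 / (goldenRatio - g) - (goldenRatio - g - 1)) =
        g * (2 * goldenRatio - 1 - g) := by
      rw [← phi_prod g, mul_sub, mul_one_div_cancel h0.ne']
    set Z : ℝ := 1 / (goldenRatio - g) - (goldenRatio - g - 1) with hZdef
    have hc1 : c - 1 = goldenRatio - g := by rw [hc]; ring
    have hZ0 : 0 ≤ Z := by
      have h4 : (goldenRatio - g) * 0 ≤ (goldenRatio - g) * Z := by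
        rw [e, mul_zero]
        have : 0 ≤ 2 * goldenRatio - 1 - g := by linarith
        positivity
      exact le_of_mul_le_mul_left h4 h0
    refine R_le_of (Z := Z) (by omega) (by linarith) (Z_eq h0) hZ0 1 ?_ ?_
    · rw [pow_one, hc1, e]
      have h5 : g * (2 * goldenRatio - 1 - g) ≤ 0.077 * 2.24 :=
        mul_le_mul hg1 (by linarith) (by linarith) (by norm_num)
      have h6 : c * (g * (2 * goldenRatio - 1 - g)) ≤ 3 * (0.077 * 2.24) :=
        mul_le_mul (by linarith) h5 (mul_nonneg hg0.le (by linarith)) (by norm_num)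
      norm_num at h6
      linarith
    · have h7 : g * ((m + (c ^ 2 - 1)) * ((goldenRatio - g) * Z)) ≤
          g * ((goldenRatio - g) * 2) := by
        rw [e]
        have h8 : g * ((m + (c ^ 2 - 1)) * (g * (2 * goldenRatio - 1 - g))) =
            g * ((g * m + g * (c ^ 2 - 1)) * (2 * goldenRatio - 1 - g)) := by ring
        rw [h8, hgm]
        apply mul_le_mul_of_nonneg_left _ hg0.le
        have e4 : (1.001 + g * (c ^ 2 - 1)) * (2 * goldenRatio - 1 - g) =
            1.001 * (2 * goldenRatio - 1) + g * (5 * goldenRatio + 3.999) -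
              g ^ 2 * (9 * goldenRatio + 3) + g ^ 3 * (4 * goldenRatio + 1) - g ^ 4 := by
          rw [hc]
          linear_combination (g * (2 * goldenRatio + 5 - 5 * g)) * h3
        rw [e4]
        have q1 : 0.154 * g - 0.005929 ≤ g ^ 2 := by
          have := sq_nonneg (g - 0.077)
          norm_num at this ⊢
          linarith
        have q2 : g ^ 3 ≤ 0.005929 * g := by
          have h11 : g ^ 2 ≤ 0.077 ^ 2 := pow_le_pow_left₀ hg0.le hg1 2
          have h12 := mul_le_mul_of_nonneg_right h11 hg0.le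
          norm_num at h12 ⊢
          calc g ^ 3 = g ^ 2 * g := by ring
            _ ≤ _ := h12
        have q3 : g * goldenRatio ≤ 1.618034 * g := by nlinarith
        have q4 := mul_le_mul_of_nonneg_right q1 (by linarith : 0 ≤ 9 * goldenRatio + 3)
        have q5 := mul_le_mul_of_nonneg_right q2 (by linarith : 0 ≤ 4 * goldenRatio + 1)
        have q6 : 0 ≤ g ^ 4 := by positivity
        norm_num at hg1 q3 q4 q5 h1 h2 ⊢
        nlinarith
      have h9 : (g * (goldenRatio - g)) * ((m + (c ^ 2 - 1)) * Z) ≤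
          (g * (goldenRatio - g)) * 2 := by linarith
      have h10 : (m + (c ^ 2 - 1)) * Z ≤ 2 :=
        le_of_mul_le_mul_left h9 (mul_pos hg0 h0)
      norm_num
      linarith
  have : 1 / (m : ℝ) < g := by
    rw [hg]
    exact div_lt_div_of_pos_right (by norm_num) hm0
  linarith

end Pool.Agent.H69.Sched
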